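import Pool.Agent.H13.RiA
import Pool.Agent.H13.RiB

set_option autoImplicit false

namespace Pool.Agent.Results.MP_8ede36_co.LocallyFinite

/-- There is a connected, locally finite graph `G` (every vertex has finite degree) that is roughly
isometric to the Euclidean plane with multiplicative constant 1: a map `f : V → ℝ²` with
`|‖f x - f y‖ - d_G(x,y)| < C` for all vertices `x, y`, whose image is a `C`-net in `ℝ²`. -/
theorem result :
    ∃ (V : Type) (G : SimpleGraph V) (f : V → EuclideanSpace ℝ (Fin 2)) (C : ℝ),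
      G.Connected ∧ (∀ v, (G.neighborSet v).Finite) ∧ 0 < C ∧
      (∀ x y, |‖f x - f y‖ - (G.dist x y : ℝ)| < C) ∧
      (∀ p : EuclideanSpace ℝ (Fin 2), ∃ x, ‖f x - p‖ < C) :=
  Pool.Agent.H13.Ri.final

end Pool.Agent.Results.MP_8ede36_co.LocallyFinite
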